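import Mathlib
import Pool.Agent.N741.HB.Stm4

/-! Auxiliary lemmas for `sol` (HC/13). -/

set_option autoImplicit false

namespace Pool.Agent.N887.HC

open Pool.Agent.N741.HC

/-- the value of a vector of integers in a commutative ring -/
def vk {R : Type*} [CommRing R] {k : ℕ} (a : R) (c : Fin k → ℤ) : R :=
  ∑ l, (c l : R) * a ^ (l : ℕ)

lemma vl_eq {k : ℕ} (a : ℂ) (c : Fin k → ℤ) : vl a c = vk a c := rfl

lemma map_vk {R S : Type*} [CommRing R] [CommRing S] (f : R →+* S) {k : ℕ} (a : R)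
    (c : Fin k → ℤ) : f (vk a c) = vk (f a) c := by
  simp [vk, map_sum]

lemma norm_vk_le {k : ℕ} (a : ℂ) (c : Fin k → ℤ) (B R : ℝ) (hR : 1 ≤ R) (ha : ‖a‖ ≤ R)
    (hc : ∀ l, ((|c l| : ℤ) : ℝ) ≤ B) : ‖vk a c‖ ≤ k * (B * R ^ k) := by
  have h1 : ∀ l : Fin k, ‖(c l : ℂ) * a ^ (l : ℕ)‖ ≤ B * R ^ k := by
    intro l
    rw [norm_mul, norm_pow]
    have hn : ‖(c l : ℂ)‖ ≤ B := by
      rw [Complex.norm_intCast]
      have := hc l
      push_cast at this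
      exact this
    have hB : 0 ≤ B := (norm_nonneg _).trans hn
    have h2 : ‖a‖ ^ (l : ℕ) ≤ R ^ k :=
      (pow_le_pow_left₀ (norm_nonneg _) ha _).trans (pow_le_pow_right₀ hR l.2.le)
    exact mul_le_mul hn h2 (by positivity) hB
  calc ‖vk a c‖ ≤ ∑ l : Fin k, ‖(c l : ℂ) * a ^ (l : ℕ)‖ := norm_sum_le _ _
    _ ≤ ∑ l : Fin k, B * R ^ k := Finset.sum_le_sum fun l _ => h1 l
    _ = k * (B * R ^ k) := by simp

lemma root_bound {k : ℕ} (hk : 1 ≤ k) (a : ℂ) (m : Fin k → ℤ) (h : a ^ k + vk a m = 0) (B : ℝ)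
    (hm : ∀ l, ((|m l| : ℤ) : ℝ) ≤ B) : ‖a‖ ≤ 1 + k * B := by
  by_contra! hlt
  have hB : 0 ≤ B := by
    have := hm ⟨0, hk⟩
    refine le_trans ?_ this
    exact_mod_cast abs_nonneg _
  have ha1 : 1 ≤ ‖a‖ := by
    have : (0 : ℝ) ≤ k * B := by positivity
    linarith
  obtain ⟨j, rfl⟩ : ∃ j, k = j + 1 := ⟨k - 1, by omega⟩
  have h1 : ∀ l : Fin (j + 1), ‖(m l : ℂ) * a ^ (l : ℕ)‖ ≤ B * ‖a‖ ^ j := by
    intro l
    rw [norm_mul, norm_pow]
    have hn : ‖(m l : ℂ)‖ ≤ B := by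
      rw [Complex.norm_intCast]
      have := hm l
      push_cast at this
      exact this
    have h2 : ‖a‖ ^ (l : ℕ) ≤ ‖a‖ ^ j := pow_le_pow_right₀ ha1 (by omega)
    exact mul_le_mul hn h2 (by positivity) hB
  have h3 : ‖a‖ ^ (j + 1) ≤ ((j + 1 : ℕ) : ℝ) * (B * ‖a‖ ^ j) := by
    calc ‖a‖ ^ (j + 1) = ‖vk a m‖ := by
            have : a ^ (j + 1) = - vk a m := by linear_combination h
            rw [← norm_pow, this, norm_neg]
      _ ≤ ∑ l : Fin (j + 1), ‖(m l : ℂ) * a ^ (l : ℕ)‖ := norm_sum_le _ _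
      _ ≤ ∑ l : Fin (j + 1), B * ‖a‖ ^ j := Finset.sum_le_sum fun l _ => h1 l
      _ = ((j + 1 : ℕ) : ℝ) * (B * ‖a‖ ^ j) := by simp
  have h4 : (0 : ℝ) < ‖a‖ ^ j := by positivity
  rw [pow_succ] at h3
  have h5 : ‖a‖ ≤ ((j + 1 : ℕ) : ℝ) * B := by
    refine le_of_mul_le_mul_left ?_ h4
    linarith
  linarith

lemma isIntegral_root {R : Type*} [CommRing R] {k : ℕ} (a : R) (m : Fin k → ℤ)
    (h : a ^ k + vk a m = 0) : IsIntegral ℤ a := by
  refine ⟨Polynomial.X ^ k + ∑ l : Fin k, Polynomial.C (m l) * Polynomial.X ^ (l : ℕ), ?_, ?_⟩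
  · exact Polynomial.monic_X_pow_add (Polynomial.degree_sum_fin_lt m)
  · rw [Polynomial.eval₂_add, Polynomial.eval₂_pow, Polynomial.eval₂_X,
      Polynomial.eval₂_finsetSum]
    rw [← h, vk]
    congr 1
    refine Finset.sum_congr rfl fun l _ => ?_
    rw [Polynomial.eval₂_mul, Polynomial.eval₂_C, Polynomial.eval₂_pow, Polynomial.eval₂_X]
    simp

lemma isIntegral_vk {R : Type*} [CommRing R] {k : ℕ} (a : R) (ha : IsIntegral ℤ a)
    (c : Fin k → ℤ) : IsIntegral ℤ (vk a c) := by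
  refine IsIntegral.sum _ fun l _ => ?_
  refine IsIntegral.mul ?_ (ha.pow _)
  exact isIntegral_algebraMap (R := ℤ) (A := R) (x := c l)

/-- powers absorb constants -/
lemma nat_le_pow (X : ℝ) (hX : 2 ≤ X) (k : ℕ) : (k : ℝ) ≤ X ^ k := by
  have h1 : (k : ℝ) ≤ 2 ^ k := by exact_mod_cast Nat.lt_two_pow_self.le
  exact h1.trans (pow_le_pow_left₀ (by norm_num) hX _)

end Pool.Agent.N887.HC
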