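import Mathlib
import Pool.Agent.N887.HC.Pre

/-! HC/13: coordinates of the solutions in number fields of bounded degree. -/

set_option autoImplicit false

namespace Pool.Agent.N887.HC

open Pool.Agent.N741.HC

/-- the norm of `z` makes the equation an equation over the subfield -/
lemma norm_eq {K : Type} [Field K] [NumberField K] (K₀ : IntermediateField ℚ K) (F G : K₀) (z : K)
    (r : ℕ) (hr : 1 ≤ r) (h : (F : K) = (G : K) * z ^ r) :
    ∃ zt : K₀, zt ^ r = (G ^ (r - 1) * F) ^ (Module.finrank K₀ K) := by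
  set e := Module.finrank K₀ K with he
  have h1 : F ^ e = G ^ e * (Algebra.norm K₀ z) ^ r := by
    have h2 : Algebra.norm K₀ (algebraMap K₀ K F) = F ^ e := Algebra.norm_algebraMap F
    have h3 : Algebra.norm K₀ (algebraMap K₀ K G) = G ^ e := Algebra.norm_algebraMap G
    rw [← h2, ← h3, ← map_pow, ← map_mul]
    congr 1
  refine ⟨G ^ e * Algebra.norm K₀ z, ?_⟩
  obtain ⟨j, rfl⟩ : ∃ j, r = j + 1 := ⟨r - 1, by omega⟩
  rw [Nat.add_sub_cancel, mul_pow, mul_pow, h1]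
  ring

/-- size of the conjugates of the generator -/
lemma gen_bound {k κ A : ℕ} (hk1 : 1 ≤ k) (hk : k ≤ κ) (X : ℝ) (hX : 2 ≤ X) (a : ℂ)
    (m : Fin k → ℤ) (h : a ^ k + vk a m = 0) (hm : ∀ l, ((|m l| : ℤ) : ℝ) ≤ X ^ A) :
    ‖a‖ ≤ X ^ (κ + A + 1) := by
  have h1 := root_bound hk1 a m h _ hm
  have hX1 : (1 : ℝ) ≤ X := by linarith
  have h2 : (k : ℝ) ≤ X ^ κ :=
    (Nat.cast_le.2 hk).trans (nat_le_pow X hX κ)
  have h3 : (k : ℝ) * X ^ A ≤ X ^ κ * X ^ A := mul_le_mul_of_nonneg_right h2 (by positivity)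
  have h4 : (1 : ℝ) ≤ X ^ κ * X ^ A := by
    rw [← pow_add]
    exact one_le_pow₀ hX1
  calc ‖a‖ ≤ 1 + k * X ^ A := h1
    _ ≤ 2 * (X ^ κ * X ^ A) := by linarith
    _ ≤ X * (X ^ κ * X ^ A) := mul_le_mul_of_nonneg_right hX (by positivity)
    _ = X ^ (κ + A + 1) := by ring

/-- size of the conjugates of the elements -/
lemma val_bound {k κ A A2 : ℕ} (hk : k ≤ κ) (X : ℝ) (hX : 2 ≤ X) (a : ℂ)
    (c : Fin k → ℤ) (ha : ‖a‖ ≤ X ^ A2) (hc : ∀ l, ((|c l| : ℤ) : ℝ) ≤ X ^ A) :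
    ‖vk a c‖ ≤ X ^ (κ + A + A2 * κ) := by
  have hX1 : (1 : ℝ) ≤ X := by linarith
  have h1 := norm_vk_le a c _ _ (one_le_pow₀ hX1) ha hc
  have h2 : (k : ℝ) ≤ X ^ κ :=
    (Nat.cast_le.2 hk).trans (nat_le_pow X hX κ)
  have h3 : (X ^ A2) ^ k ≤ (X ^ A2) ^ κ := pow_le_pow_right₀ (one_le_pow₀ hX1) hk
  calc ‖vk a c‖ ≤ k * (X ^ A * (X ^ A2) ^ k) := h1
    _ ≤ X ^ κ * (X ^ A * (X ^ A2) ^ κ) := by gcongr
    _ = X ^ (κ + A + A2 * κ) := by ring

theorem sol (h : S_code) : S_sol := by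
  intro n m κ E
  obtain ⟨C0, hC⟩ := h (n + m + 1) κ
  obtain ⟨A1, hA1⟩ : ∃ A, A = (E + 1) * C0 := ⟨_, rfl⟩
  obtain ⟨A2, hA2⟩ : ∃ A, A = κ + A1 + 1 := ⟨_, rfl⟩
  obtain ⟨A3, hA3⟩ : ∃ A, A = n + E + A1 := ⟨_, rfl⟩
  obtain ⟨A4, hA4⟩ : ∃ A, A = κ + A3 + A2 * κ := ⟨_, rfl⟩
  obtain ⟨C, hCd⟩ : ∃ A, A = (A4 + m + 1) * κ + A1 * κ + A1 + 2 * A4 := ⟨_, rfl⟩
  refine ⟨C, ?_⟩
  intro K _ _ σ Y x s s0 z u v hh r w U hK hY hx hxY hs hs0 hs0Y hhb hu hv hU hr heq
  obtain ⟨j0, hj0⟩ : ∃ j, x j ≠ 0 := by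
    by_contra! H
    exact hx (funext H)
  have hYr : (1 : ℝ) ≤ Y := by exact_mod_cast hY
  have hE1 : (Y : ℝ) ≤ ((Y ^ (E + 1) : ℕ) : ℝ) := by
    push_cast
    exact le_self_pow₀ hYr (by omega)
  have hE2 : (Y : ℝ) ^ E ≤ ((Y ^ (E + 1) : ℕ) : ℝ) := by
    push_cast
    exact pow_le_pow_right₀ hYr (by omega)
  -- the family
  obtain ⟨k, K₀, α, mm, D, D₁, V, hk1, hk, hmem, hD0, hD10, hDb, hD1b, hmb, hVb, hroot, hlin, hV,
    hint⟩ :=
    hC K (Y ^ (E + 1)) (Fin.append (Fin.append (fun j => x j / x j0) s) (fun _ => s0)) hK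
      (Nat.one_le_pow _ _ hY) (by
        intro j
        refine Fin.addCases (fun j => ?_) (fun j => ?_) j
        · rw [Fin.append_left]
          refine Fin.addCases (fun j => ?_) (fun j => ?_) j
          · rw [Fin.append_left]
            refine le_trans ?_ hE1
            refine le_trans ?_ hxY
            rw [Height.mulHeight₁_div_eq_mulHeight]
            have h1 := Height.mulHeight_comp_le ![j, j0] x
            have h2 : x ∘ ![j, j0] = ![x j, x j0] := by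
              funext t
              fin_cases t <;> rfl
            rw [h2] at h1
            exact h1
          · rw [Fin.append_right]
            exact (hs j).2.trans hE2
        · rw [Fin.append_right]
          exact hs0Y.trans hE2)
  -- bounds in terms of `X = Y + 2`
  obtain ⟨X, hXd⟩ : ∃ X : ℝ, X = (Y : ℝ) + 2 := ⟨_, rfl⟩
  have hX2 : (2 : ℝ) ≤ X := by rw [hXd]; linarith
  have hX1 : (1 : ℝ) ≤ X := by linarith
  have hX0 : (0 : ℝ) ≤ X := by linarith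
  have hYX : (Y : ℝ) ≤ X := by rw [hXd]; linarith
  have hXn : Y ^ (E + 1) + 1 ≤ (Y + 2) ^ (E + 1) := Nat.pow_lt_pow_left (by omega) (by omega)
  have hXC : (((Y ^ (E + 1) : ℕ) : ℝ) + 1) ^ C0 ≤ X ^ A1 := by
    rw [hA1, pow_mul]
    refine pow_le_pow_left₀ (by positivity) ?_ _
    rw [hXd]
    exact_mod_cast hXn
  have cast_bd : ∀ a : ℤ, |a| ≤ (((Y ^ (E + 1) : ℕ) : ℤ) + 1) ^ C0 → ((|a| : ℤ) : ℝ) ≤ X ^ A1 := by
    intro a ha
    refine le_trans ?_ hXC
    exact_mod_cast ha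
  have hmX : ∀ l, ((|mm l| : ℤ) : ℝ) ≤ X ^ A1 := fun l => cast_bd _ (hmb l)
  have hVX : ∀ j l, ((|V j l| : ℤ) : ℝ) ≤ X ^ A1 := fun j l => cast_bd _ (hVb j l)
  have hDX : (D : ℝ) ≤ X ^ A1 := by
    refine le_trans ?_ hXC
    exact_mod_cast hDb
  have back : ∀ (a : ℤ) (A : ℕ), A ≤ C → ((|a| : ℤ) : ℝ) ≤ X ^ A → |a| ≤ ((Y : ℤ) + 2) ^ C := by
    intro a A hA ha
    have h1 : ((|a| : ℤ) : ℝ) ≤ X ^ C := ha.trans (pow_le_pow_right₀ hX1 hA)
    rw [hXd] at h1
    exact_mod_cast h1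
  -- the coordinates
  obtain ⟨vb, hvbd⟩ : ∃ vb : Fin m → Fin k → ℤ, vb = fun i l =>
    ∑ j, hh i j * V (Fin.castAdd 1 (Fin.castAdd m j)) l := ⟨_, rfl⟩
  obtain ⟨vs, hvsd⟩ : ∃ vs : Fin m → Fin k → ℤ, vs = fun i => V (Fin.castAdd 1 (Fin.natAdd n i)) :=
    ⟨_, rfl⟩
  obtain ⟨v0, hv0d⟩ : ∃ v0 : Fin k → ℤ, v0 = V (Fin.natAdd (n + m) 0) := ⟨_, rfl⟩
  obtain ⟨lam, hlam⟩ : ∃ lam : K, lam = (D : K) * D₁ / x j0 := ⟨_, rfl⟩
  have hDK : (D : K) ≠ 0 := Nat.cast_ne_zero.2 hD0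
  have hD1K : (D₁ : K) ≠ 0 := Nat.cast_ne_zero.2 hD10
  have hlam0 : lam ≠ 0 := by
    rw [hlam]
    exact div_ne_zero (mul_ne_zero hDK hD1K) hj0
  have coe_vk : ∀ c : Fin k → ℤ, ((vk α c : K₀) : K) = vk (α : K) c := fun c =>
    map_vk (algebraMap K₀ K) α c
  have hbK : ∀ i, ((vk α (vb i) : K₀) : K) = lam * ∑ j, (hh i j : K) * x j := by
    intro i
    rw [coe_vk, hvbd, vk, Finset.mul_sum]
    have h1 : ∀ j, (D : K) * (D₁ * (x j / x j0)) =
        ∑ l, (V (Fin.castAdd 1 (Fin.castAdd m j)) l : K) * (α : K) ^ (l : ℕ) := by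
      intro j
      have := hV (Fin.castAdd 1 (Fin.castAdd m j))
      rw [Fin.append_left, Fin.append_left] at this
      exact this
    have h2 : ∀ j, lam * ((hh i j : K) * x j) = (hh i j : K) *
        ∑ l, (V (Fin.castAdd 1 (Fin.castAdd m j)) l : K) * (α : K) ^ (l : ℕ) := by
      intro j
      rw [← h1 j, hlam]
      ring
    rw [Finset.sum_congr rfl fun j _ => h2 j]
    simp only [Finset.mul_sum]
    rw [Finset.sum_comm]
    refine Finset.sum_congr rfl fun l _ => ?_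
    push_cast
    rw [Finset.sum_mul]
    refine Finset.sum_congr rfl fun j _ => ?_
    ring
  have hsK : ∀ i, ((vk α (vs i) : K₀) : K) = (D : K) * (D₁ * s i) := by
    intro i
    have := hV (Fin.castAdd 1 (Fin.natAdd n i))
    rw [Fin.append_left, Fin.append_right] at this
    rw [coe_vk, this, hvsd]
    rfl
  have hs0K : ((vk α v0 : K₀) : K) = (D : K) * (D₁ * s0) := by
    have := hV (Fin.natAdd (n + m) 0)
    rw [Fin.append_right] at this
    rw [coe_vk, this, hv0d]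
    rfl
  -- the coordinates of `b` are small
  have hvbX : ∀ i l, ((|vb i l| : ℤ) : ℝ) ≤ X ^ A3 := by
    intro i l
    rw [hvbd]
    have h1 : ∀ j, |(hh i j : ℝ) * (V (Fin.castAdd 1 (Fin.castAdd m j)) l : ℝ)| ≤
        X ^ E * X ^ A1 := by
      intro j
      rw [abs_mul]
      refine mul_le_mul ?_ ?_ (abs_nonneg _) (by positivity)
      · have h2 : ((|hh i j| : ℤ) : ℝ) ≤ (Y : ℝ) ^ E := by exact_mod_cast hhb i j
        rw [← Int.cast_abs]
        exact h2.trans (pow_le_pow_left₀ (by positivity) hYX _)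
      · rw [← Int.cast_abs]
        exact hVX _ l
    push_cast
    calc |∑ j, (hh i j : ℝ) * (V (Fin.castAdd 1 (Fin.castAdd m j)) l : ℝ)| ≤
          ∑ j, |(hh i j : ℝ) * (V (Fin.castAdd 1 (Fin.castAdd m j)) l : ℝ)| :=
            Finset.abs_sum_le_sum_abs _ _
      _ ≤ ∑ j : Fin n, X ^ E * X ^ A1 := Finset.sum_le_sum fun j _ => h1 j
      _ = n * (X ^ E * X ^ A1) := by simp
      _ ≤ X ^ n * (X ^ E * X ^ A1) :=
            mul_le_mul_of_nonneg_right (nat_le_pow X hX2 n) (by positivity)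
      _ = X ^ A3 := by rw [hA3]; ring
  have hA13 : A1 ≤ A3 := by omega
  have hvsX : ∀ i l, ((|vs i l| : ℤ) : ℝ) ≤ X ^ A3 := by
    intro i l
    rw [hvsd]
    exact (hVX _ l).trans (pow_le_pow_right₀ hX1 hA13)
  have hv0X : ∀ l, ((|v0 l| : ℤ) : ℝ) ≤ X ^ A3 := by
    intro l
    rw [hv0d]
    exact (hVX _ l).trans (pow_le_pow_right₀ hX1 hA13)
  -- the values are small
  have hrootv : ∀ τ : K₀ →+* ℂ, τ α ^ k + vk (τ α) mm = 0 := by
    intro τ
    have h1 := congrArg τ hroot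
    rw [map_add, map_pow, map_zero] at h1
    rw [← map_vk τ α mm]
    exact h1
  have hατ : ∀ τ : K₀ →+* ℂ, ‖τ α‖ ≤ X ^ A2 := fun τ => by
    rw [hA2]
    exact gen_bound hk1 hk X hX2 (τ α) mm (hrootv τ) hmX
  have hvalτ : ∀ (τ : K₀ →+* ℂ) (c : Fin k → ℤ), (∀ l, ((|c l| : ℤ) : ℝ) ≤ X ^ A3) →
      ‖τ (vk α c)‖ ≤ X ^ A4 := by
    intro τ c hc
    rw [map_vk, hA4]
    exact val_bound hk X hX2 (τ α) c (hατ τ) hc
  have hαint : IsIntegral ℤ α := isIntegral_root α mm hroot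
  have hvint : ∀ c : Fin k → ℤ, IsIntegral ℤ (vk α c : K₀) := fun c => isIntegral_vk α hαint c
  -- the products
  have hprod : ∀ i, ∃ ζ : Fin k → ℤ, (D : K₀) * (vk α (vs i) * vk α (vb i)) = vk α ζ ∧
      ∀ l, ((|ζ l| : ℤ) : ℝ) ≤ X ^ (2 * A4 + A1) := by
    intro i
    obtain ⟨ζ, h1, h2⟩ := hint (vk α (vs i) * vk α (vb i)) (X ^ (2 * A4))
      ((hvint _).mul (hvint _)) (by
        intro τ
        rw [map_mul, norm_mul]
        calc ‖τ (vk α (vs i))‖ * ‖τ (vk α (vb i))‖ ≤ X ^ A4 * X ^ A4 :=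
              mul_le_mul (hvalτ τ _ (hvsX i)) (hvalτ τ _ (hvbX i)) (norm_nonneg _) (by positivity)
          _ = X ^ (2 * A4) := by ring)
    refine ⟨ζ, h1, fun l => (h2 l).trans ?_⟩
    rw [pow_add X (2 * A4) A1]
    exact mul_le_mul_of_nonneg_left hXC (by positivity)
  choose vp hvp1 hvp2 using hprod
  -- the equation over `K₀`
  obtain ⟨F, hF⟩ : ∃ F : K₀, F = ∑ i, (u i : K₀) * (vk α (vs i) * vk α (vb i) ^ (r * w)) :=
    ⟨_, rfl⟩
  obtain ⟨G, hG⟩ : ∃ G : K₀, G = (v : K₀) * vk α v0 := ⟨_, rfl⟩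
  have hFG : (F : K) = (G : K) * (z * lam ^ w) ^ r := by
    have h1 : (F : K) = ∑ i, (u i : K) * (((vk α (vs i) : K₀) : K) *
        ((vk α (vb i) : K₀) : K) ^ (r * w)) := by
      rw [hF]
      push_cast
      rfl
    have h2 : (G : K) = (v : K) * ((vk α v0 : K₀) : K) := by
      rw [hG]
      push_cast
      rfl
    rw [h1, h2, hs0K]
    have h3 : ∀ i, (u i : K) * (((vk α (vs i) : K₀) : K) * ((vk α (vb i) : K₀) : K) ^ (r * w)) =
        ((D : K) * D₁ * lam ^ (r * w)) *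
          ((u i : K) * (s i * (∑ j, (hh i j : K) * x j) ^ (r * w))) := by
      intro i
      rw [hbK, hsK, mul_pow]
      ring
    rw [Finset.sum_congr rfl fun i _ => h3 i, ← Finset.mul_sum, ← heq, mul_pow, ← pow_mul,
      mul_comm w r]
    ring
  obtain ⟨zt, hzt⟩ := norm_eq K₀ F G (z * lam ^ w) r hr hFG
  obtain ⟨e, he⟩ : ∃ e, e = Module.finrank K₀ K := ⟨_, rfl⟩
  rw [← he] at hzt
  have he1 : 1 ≤ e := by
    rw [he]
    exact Module.finrank_pos
  have heκ : e ≤ κ := by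
    have h1 := Module.finrank_mul_finrank ℚ K₀ K
    have h2 : 1 ≤ Module.finrank ℚ K₀ := Module.finrank_pos
    rw [← he] at h1
    calc e = 1 * e := (one_mul e).symm
      _ ≤ Module.finrank ℚ K₀ * e := Nat.mul_le_mul_right _ h2
      _ = Module.finrank ℚ K := h1
      _ ≤ κ := hK
  have intZ : ∀ a : ℤ, IsIntegral ℤ (a : K₀) := fun a =>
    isIntegral_algebraMap (R := ℤ) (A := K₀) (x := a)
  have hztint : IsIntegral ℤ zt := by
    refine IsIntegral.of_pow (n := r) (by omega) ?_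
    rw [hzt]
    refine IsIntegral.pow (IsIntegral.mul (IsIntegral.pow ?_ _) ?_) _
    · rw [hG]
      exact (intZ v).mul (hvint _)
    · rw [hF]
      exact IsIntegral.sum _ fun i _ => (intZ _).mul ((hvint _).mul ((hvint _).pow _))
  -- size of `zt`
  have hUr : (1 : ℝ) ≤ U := by exact_mod_cast hU
  have hvU : ‖(v : ℂ)‖ ≤ U := by
    rw [Complex.norm_intCast]
    have : ((|v| : ℤ) : ℝ) ≤ U := by exact_mod_cast hv
    rwa [Int.cast_abs] at this
  have huU : ∀ i, ‖(u i : ℂ)‖ ≤ U := by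
    intro i
    rw [Complex.norm_intCast]
    have : ((|u i| : ℤ) : ℝ) ≤ U := by exact_mod_cast hu i
    rwa [Int.cast_abs] at this
  have hGτ : ∀ τ : K₀ →+* ℂ, ‖τ G‖ ≤ U * X ^ A4 := by
    intro τ
    rw [hG, map_mul, norm_mul, map_intCast]
    exact mul_le_mul hvU (hvalτ τ _ hv0X) (norm_nonneg _) (by positivity)
  have hFτ : ∀ τ : K₀ →+* ℂ, ‖τ F‖ ≤ U * X ^ (m + A4 + A4 * (r * w)) := by
    intro τ
    rw [hF, map_sum]
    have h1 : ∀ i, ‖τ ((u i : K₀) * (vk α (vs i) * vk α (vb i) ^ (r * w)))‖ ≤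
        U * (X ^ A4 * (X ^ A4) ^ (r * w)) := by
      intro i
      rw [map_mul, map_mul, map_pow, norm_mul, norm_mul, norm_pow, map_intCast]
      refine mul_le_mul (huU i) ?_ (by positivity) (by positivity)
      refine mul_le_mul (hvalτ τ _ (hvsX i)) ?_ (by positivity) (by positivity)
      exact pow_le_pow_left₀ (norm_nonneg _) (hvalτ τ _ (hvbX i)) _
    calc ‖∑ i, τ ((u i : K₀) * (vk α (vs i) * vk α (vb i) ^ (r * w)))‖ ≤
          ∑ i, ‖τ ((u i : K₀) * (vk α (vs i) * vk α (vb i) ^ (r * w)))‖ := norm_sum_le _ _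
      _ ≤ ∑ i : Fin m, U * (X ^ A4 * (X ^ A4) ^ (r * w)) := Finset.sum_le_sum fun i _ => h1 i
      _ = m * (U * (X ^ A4 * (X ^ A4) ^ (r * w))) := by simp
      _ ≤ X ^ m * (U * (X ^ A4 * (X ^ A4) ^ (r * w))) :=
            mul_le_mul_of_nonneg_right (nat_le_pow X hX2 m) (by positivity)
      _ = U * X ^ (m + A4 + A4 * (r * w)) := by
            rw [← pow_mul]
            ring
  have hUX1 : (1 : ℝ) ≤ U * X := one_le_mul_of_one_le_of_one_le hUr hX1
  have hztτ : ∀ τ : K₀ →+* ℂ, ‖τ zt‖ ≤ (U * X) ^ ((A4 + m + 1) * κ * (r * w + r)) := by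
    intro τ
    have h1 : ‖τ zt‖ ^ r ≤ (U * X) ^ ((A4 + m + 1) * κ * (r * w + r)) := by
      rw [← norm_pow, ← map_pow, hzt, map_pow, map_mul, map_pow, norm_pow, norm_mul, norm_pow]
      have h2 : ‖τ G‖ ^ (r - 1) * ‖τ F‖ ≤ (U * X) ^ ((A4 + m + 1) * (r * w + r)) := by
        calc ‖τ G‖ ^ (r - 1) * ‖τ F‖ ≤
              (U * X ^ A4) ^ (r - 1) * (U * X ^ (m + A4 + A4 * (r * w))) := by
                refine mul_le_mul (pow_le_pow_left₀ (norm_nonneg _) (hGτ τ) _) (hFτ τ)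
                  (norm_nonneg _) (by positivity)
          _ = U ^ r * X ^ (A4 * r + m + A4 * (r * w)) := by
                obtain ⟨j, rfl⟩ : ∃ j, r = j + 1 := ⟨r - 1, by omega⟩
                rw [Nat.add_sub_cancel]
                ring
          _ ≤ (U : ℝ) ^ ((A4 + m + 1) * (r * w + r)) * X ^ ((A4 + m + 1) * (r * w + r)) := by
                refine mul_le_mul (pow_le_pow_right₀ hUr ?_) (pow_le_pow_right₀ hX1 ?_)
                  (by positivity) (by positivity)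
                · nlinarith [Nat.zero_le (r * w), Nat.zero_le (A4 + m), Nat.zero_le r]
                · have : m ≤ m * r := Nat.le_mul_of_pos_right m (by omega)
                  nlinarith [Nat.zero_le (r * w), Nat.zero_le (A4 + m), Nat.zero_le r]
          _ = (U * X) ^ ((A4 + m + 1) * (r * w + r)) := by rw [mul_pow]
      calc (‖τ G‖ ^ (r - 1) * ‖τ F‖) ^ e ≤ ((U * X) ^ ((A4 + m + 1) * (r * w + r))) ^ e :=
            pow_le_pow_left₀ (by positivity) h2 _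
        _ ≤ ((U * X) ^ ((A4 + m + 1) * (r * w + r))) ^ κ :=
            pow_le_pow_right₀ (one_le_pow₀ hUX1) heκ
        _ = (U * X) ^ ((A4 + m + 1) * κ * (r * w + r)) := by
            rw [← pow_mul]
            congr 1
            ring
    rcases le_total ‖τ zt‖ 1 with h3 | h3
    · exact h3.trans (one_le_pow₀ hUX1)
    · exact (le_self_pow₀ h3 (by omega)).trans h1
  obtain ⟨ζ0, hζ1, hζ2⟩ := hint zt _ hztint hztτ
  -- the code
  have hα : ∀ c : Fin k → ℤ, σ (((vk α c : K₀)) : K) = vl (σ (α : K)) c := by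
    intro c
    rw [coe_vk, map_vk, vl_eq]
  have hAC1 : A1 ≤ C := by omega
  have hAC3 : A3 ≤ C := by omega
  have hAC4 : 2 * A4 + A1 ≤ C := by omega
  refine ⟨{
    k := k
    α := σ (α : K)
    lam := σ lam
    mu := (D : ℂ) * D₁
    D := D
    mm := mm
    vb := vb
    vs := vs
    vp := vp
    v0 := v0
    hk1 := hk1
    hk := hk
    lam0 := (map_ne_zero σ).2 hlam0
    mu0 := mul_ne_zero (Nat.cast_ne_zero.2 hD0) (Nat.cast_ne_zero.2 hD10)
    D0 := hD0
    Dbd := ?_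
    mbd := fun l => back _ _ hAC1 (hmX l)
    vbbd := fun i l => back _ _ hAC3 (hvbX i l)
    vsbd := fun i l => back _ _ hAC3 (hvsX i l)
    vpbd := fun i l => back _ _ hAC4 (hvp2 i l)
    v0bd := fun l => back _ _ hAC3 (hv0X l)
    root := ?_
    lin := ?_
    evb := ?_
    evs := ?_
    evp := ?_
    ev0 := ?_ }, e, fun l => (D : ℤ) ^ (e - 1) * ζ0 l, he1, heκ, ?_, ?_⟩
  · have h1 : (D : ℝ) ≤ X ^ C := hDX.trans (pow_le_pow_right₀ hX1 hAC1)
    rw [hXd] at h1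
    exact_mod_cast h1
  · have := hrootv (σ.comp (algebraMap K₀ K))
    exact this
  · intro c hc
    rw [← hα, map_eq_zero] at hc
    refine hlin c ?_
    have : (vk α c : K₀) = 0 := by
      exact_mod_cast hc
    exact this
  · intro i
    rw [← hα, hbK, map_mul]
  · intro i
    rw [← hα, hsK, map_mul, map_mul, map_natCast, map_natCast, mul_assoc]
  · intro i
    rw [← hα, ← hα, ← hα, ← hvp1 i]
    push_cast
    rw [map_mul, map_mul, map_natCast]
  · rw [← hα, hs0K]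
    exact (map_ne_zero σ).2 (mul_ne_zero hDK (mul_ne_zero hD1K hs0))
  · intro l
    have h1 : ((|(D : ℤ) ^ (e - 1) * ζ0 l| : ℤ) : ℝ) ≤
        (U * X) ^ (C * (r * w + r)) := by
      push_cast
      rw [abs_mul, abs_pow, Nat.abs_cast, ← Int.cast_abs]
      have h2 : (D : ℝ) ^ (e - 1) ≤ X ^ (A1 * κ) := by
        calc (D : ℝ) ^ (e - 1) ≤ (X ^ A1) ^ (e - 1) := pow_le_pow_left₀ (by positivity) hDX _
          _ ≤ (X ^ A1) ^ κ := pow_le_pow_right₀ (one_le_pow₀ hX1) (by omega)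
          _ = X ^ (A1 * κ) := by rw [pow_mul]
      have h3 : ((|ζ0 l| : ℤ) : ℝ) ≤
          (U * X) ^ ((A4 + m + 1) * κ * (r * w + r)) * X ^ A1 :=
        (hζ2 l).trans (mul_le_mul_of_nonneg_left hXC (by positivity))
      have hXU : X ≤ U * X := le_mul_of_one_le_left hX0 hUr
      calc (D : ℝ) ^ (e - 1) * ((|ζ0 l| : ℤ) : ℝ) ≤
            X ^ (A1 * κ) * ((U * X) ^ ((A4 + m + 1) * κ * (r * w + r)) * X ^ A1) :=
              mul_le_mul h2 h3 (by exact_mod_cast abs_nonneg _) (by positivity)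
        _ = X ^ (A1 * κ + A1) * (U * X) ^ ((A4 + m + 1) * κ * (r * w + r)) := by
              rw [pow_add]
              ring
        _ ≤ (U * X) ^ (A1 * κ + A1) * (U * X) ^ ((A4 + m + 1) * κ * (r * w + r)) := by
              refine mul_le_mul_of_nonneg_right (pow_le_pow_left₀ hX0 hXU _) (by positivity)
        _ = (U * X) ^ (A1 * κ + A1 + (A4 + m + 1) * κ * (r * w + r)) := by rw [← pow_add]
        _ ≤ (U * X) ^ (C * (r * w + r)) := by
              refine pow_le_pow_right₀ hUX1 ?_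
              have h5 : 1 ≤ r * w + r := by omega
              have h6 : A1 * κ + A1 ≤ (A1 * κ + A1) * (r * w + r) :=
                Nat.le_mul_of_pos_right _ (by omega)
              have h7 : (A1 * κ + A1) * (r * w + r) + (A4 + m + 1) * κ * (r * w + r) ≤
                  C * (r * w + r) := by
                rw [← Nat.add_mul]
                exact Nat.mul_le_mul_right _ (by omega)
              omega
    rw [hXd] at h1
    exact_mod_cast h1
  · -- the equation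
    have hζ : vl (σ (α : K)) (fun l => (D : ℤ) ^ (e - 1) * ζ0 l) =
        σ ((((D : K₀) ^ e * zt : K₀)) : K) := by
      rw [← hα]
      congr 2
      have h1 : (vk α (fun l => (D : ℤ) ^ (e - 1) * ζ0 l) : K₀) = (D : K₀) ^ (e - 1) * vk α ζ0 := by
        simp only [vk, Finset.mul_sum]
        refine Finset.sum_congr rfl fun l _ => ?_
        push_cast
        ring
      have h2 : vk α ζ0 = (D : K₀) * zt := hζ1.symm
      rw [h1, h2]
      obtain ⟨j, rfl⟩ : ∃ j, e = j + 1 := ⟨e - 1, by omega⟩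
      rw [Nat.add_sub_cancel]
      ring
    change ((D : ℂ) ^ r * vl (σ (α : K)) v0 ^ (r - 1) * ∑ i, ((v ^ (r - 1) * u i : ℤ) : ℂ) *
      (vl (σ (α : K)) (vs i) * vl (σ (α : K)) (vb i) ^ (r * w))) ^ e =
        vl (σ (α : K)) (fun l => (D : ℤ) ^ (e - 1) * ζ0 l) ^ r
    rw [hζ]
    have h3 : (((D : K₀) ^ e * zt) ^ r : K₀) = ((D : K₀) ^ r * vk α v0 ^ (r - 1) *
        ∑ i, ((v ^ (r - 1) * u i : ℤ) : K₀) * (vk α (vs i) * vk α (vb i) ^ (r * w))) ^ e := by
      have h4 : (∑ i, ((v ^ (r - 1) * u i : ℤ) : K₀) * (vk α (vs i) * vk α (vb i) ^ (r * w))) =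
          (v : K₀) ^ (r - 1) * F := by
        rw [hF, Finset.mul_sum]
        refine Finset.sum_congr rfl fun i _ => ?_
        push_cast
        ring
      rw [h4, mul_pow, hzt, hG]
      rw [show ((D : K₀) ^ e) ^ r = ((D : K₀) ^ r) ^ e by rw [← pow_mul, ← pow_mul, mul_comm]]
      rw [← mul_pow]
      congr 1
      rw [mul_pow]
      ring
    have h5 := congrArg (fun t : K₀ => σ (t : K)) h3
    have h6 : σ ((((D : K₀) ^ e * zt : K₀)) : K) ^ r = σ (((((D : K₀) ^ e * zt) ^ r : K₀)) : K) := by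
      rw [← map_pow]
      rfl
    rw [h6, h5]
    have h7 : ∀ c : Fin k → ℤ, vl (σ (α : K)) c = (σ.comp (algebraMap K₀ K)) (vk α c) := by
      intro c
      rw [← hα]
      rfl
    have h8 : ∀ t : K₀, σ (t : K) = (σ.comp (algebraMap K₀ K)) t := fun t => rfl
    simp only [h7]
    rw [h8]
    simp only [map_pow, map_mul, map_sum, map_intCast, map_natCast]

end Pool.Agent.N887.HC
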